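import Mathlib

/-!
# The positive integers with `+`, `x * 2 ^ y`, `≤`, `1` have no automatic presentation

Automatic structures are defined for arbitrary first order languages.  The proof: in an automatic
presentation a binary function with an automatic graph lengthens words by at most a constant, so
the numbers obtained from `1` by `O(n)` nested applications of `+` and `x * 2 ^ y` have words of
length `O(n)` and there are at most `2 ^ O(n)` of them.  But all the numbers below `2 ^ 2 ^ n` are
obtained in this way.
-/

set_option autoImplicit false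

namespace Pool.Agent.Results.MP_34afd1_lc.NotAutomatic

open FirstOrder

/-- The convolution of the words `w 0, ..., w (k-1)`: every word is padded on the right with the
padding symbol `none` to the maximal length, and the result is read as one word over the
alphabet `(A ∪ {none}) ^ k`. -/
def conv {A : Type} {k : ℕ} (w : Fin k → List A) : List (Fin k → Option A) :=
  (List.range (Finset.univ.sup fun i => (w i).length)).map fun j i => (w i)[j]?

/-- A relation `R ⊆ (A^*)^k` is automatic: the set of the convolutions of its tuples is a regular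
language. -/
def AutomaticRel {A : Type} {k : ℕ} (R : Set (Fin k → List A)) : Prop :=
  Language.IsRegular (conv '' R : Language (Fin k → Option A))

/-- A structure `M` for a first order language `L` is automatic: it is isomorphic to a structure
whose domain is a regular language `D` over a finite alphabet `A`, such that the graph of every
`n`-ary function (an `(n+1)`-ary relation on words) and every relation is automatic. Constants are
functions with `n = 0`. -/
def IsAutomatic (L : FirstOrder.Language.{0, 0}) (M : Type) [L.Structure M] : Prop :=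
  ∃ (A : Type) (_ : Finite A) (D : Set (List A)) (_ : L.Structure D),
    Language.IsRegular (D : Language A) ∧ Nonempty (M ≃[L] D) ∧
    (∀ (n : ℕ) (f : L.Functions n), AutomaticRel
      {w : Fin (n + 1) → List A | ∃ x : Fin n → D,
        w = Fin.snoc (α := fun _ => List A) (fun i => (x i : List A))
          (Language.Structure.funMap f x : D).1}) ∧
    (∀ (n : ℕ) (r : L.Relations n), AutomaticRel
      {w : Fin n → List A | ∃ x : Fin n → D,
        Language.Structure.RelMap r x ∧ w = fun i => (x i : List A)})

/-- The function symbols `1`, `+`, `x * 2 ^ y`. -/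
inductive Fun : ℕ → Type
  | one : Fun 0
  | add : Fun 2
  | shift : Fun 2

/-- The relation symbol `≤`. -/
inductive Rel : ℕ → Type
  | le : Rel 2

/-- The language with the function symbols `1`, `+`, `x * 2 ^ y` and the relation symbol `≤`. -/
def tildeLang : FirstOrder.Language.{0, 0} := ⟨Fun, Rel⟩

/-- The structure `⟨ℕ_{>0}; +, x * 2 ^ y, ≤, 1⟩`. -/
instance tildeN : tildeLang.Structure ℕ+ where
  funMap := fun {_} f => match f with
    | Fun.one => fun _ => 1
    | Fun.add => fun x => x 0 + x 1
    | Fun.shift => fun x => x 0 * 2 ^ (x 1 : ℕ)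
  RelMap := fun {_} r => match r with
    | Rel.le => fun x => x 0 ≤ x 1

/-! ### Convolutions -/

theorem conv_length {A : Type} {k : ℕ} (w : Fin k → List A) :
    (conv w).length = Finset.univ.sup fun i => (w i).length := by
  simp [conv]

theorem conv_coord {A : Type} {k : ℕ} (w : Fin k → List A) (i : Fin k) :
    (conv w).map (fun v => v i) =
      (List.range (Finset.univ.sup fun i => (w i).length)).map fun j => (w i)[j]? := by
  simp [conv, List.map_map, Function.comp_def]

theorem reduce_range {A : Type} (l : List A) (N : ℕ) (h : l.length ≤ N) :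
    ((List.range N).map fun j => l[j]?).reduceOption = l := by
  induction N generalizing l with
  | zero =>
    have : l = [] := List.length_eq_zero_iff.1 (Nat.le_zero.1 h)
    subst this
    simp [List.reduceOption]
  | succ N ih =>
    cases l with
    | nil =>
      have h1 : ((List.range (N + 1)).map fun j => ([] : List A)[j]?) =
          (List.range (N + 1)).map fun _ => none := by
        apply List.map_congr_left
        intro j _
        simp
      rw [h1]
      simp [List.reduceOption]
    | cons a l =>
      rw [List.range_succ_eq_map, List.map_cons, List.map_map]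
      have h1 : ((fun j => (a :: l)[j]?) ∘ Nat.succ) = fun j => l[j]? := by
        funext j
        simp
      rw [h1]
      have h2 := ih l (by simpa using h)
      simp only [List.getElem?_cons_zero, List.reduceOption_cons_of_some, h2]

theorem conv_reduce {A : Type} {k : ℕ} (w : Fin k → List A) (i : Fin k) :
    ((conv w).map (fun v => v i)).reduceOption = w i := by
  rw [conv_coord]
  exact reduce_range _ _ (Finset.le_sup (f := fun i => (w i).length) (Finset.mem_univ i))

/-- The letters of a convolution beyond position `m` have padding in the coordinates of words of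
length at most `m`. -/
theorem conv_drop {A : Type} {k : ℕ} (w : Fin k → List A) (i : Fin k) (m : ℕ)
    (h : (w i).length ≤ m) : ∀ v ∈ (conv w).drop m, v i = none := by
  intro v hv
  unfold conv at hv
  rw [← List.map_drop, List.mem_map] at hv
  obtain ⟨j, hj, rfl⟩ := hv
  rw [List.mem_drop_iff_getElem] at hj
  obtain ⟨j', hj', rfl⟩ := hj
  rw [List.getElem_range]
  apply List.getElem?_eq_none
  omega

theorem reduce_none {A B : Type} (f : B → Option A) (l : List B) (h : ∀ v ∈ l, f v = none) :
    (l.map f).reduceOption = [] := by
  induction l with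
  | nil => simp [List.reduceOption]
  | cons a l ih =>
    rw [List.map_cons, h a (by simp), List.reduceOption_cons_of_none]
    exact ih fun v hv => h v (by simp [hv])

/-- **Growth lemma**: a binary function with an automatic graph lengthens words by at most a
constant. -/
theorem growth {A : Type} (D : Set (List A)) (F : D → D → D)
    (h : AutomaticRel {w : Fin 3 → List A | ∃ x y : D, w = ![(x : List A), y, F x y]}) :
    ∃ C : ℕ, ∀ x y : D, (F x y : List A).length ≤
      max (x : List A).length (y : List A).length + C := by
  obtain ⟨σ, hσ, M, hM⟩ := h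
  refine ⟨Fintype.card σ, ?_⟩
  by_contra hcon
  push Not at hcon
  obtain ⟨x, y, hxy⟩ := hcon
  set m := max (x : List A).length (y : List A).length with hm
  set w : Fin 3 → List A := ![(x : List A), y, F x y] with hw
  set u := conv w with hu
  have hlen : u.length = (F x y : List A).length := by
    rw [hu, conv_length]
    apply le_antisymm
    · apply Finset.sup_le
      intro i _
      fin_cases i <;> simp [hw] <;> omega
    · exact Finset.le_sup (f := fun i => (w i).length) (Finset.mem_univ (2 : Fin 3))
  have hacc : u ∈ M.accepts := by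
    rw [hM]
    exact ⟨w, ⟨x, y, rfl⟩, rfl⟩
  -- split the word at the position `m`
  have hsplit : u.take m ++ u.drop m = u := List.take_append_drop m u
  have hdl : (u.drop m).length = u.length - m := List.length_drop
  obtain ⟨q, a, b, c, habc, -, hb, h1, h2, h3⟩ :=
    M.evalFrom_split (s := M.evalFrom M.start (u.take m)) (t := M.evalFrom M.start u)
      (x := u.drop m) (by rw [hdl, hlen]; omega) (by rw [← DFA.evalFrom_of_append, hsplit])
  have hacc' : u.take m ++ (a ++ c) ∈ M.accepts := by
    rw [DFA.mem_accepts] at hacc ⊢
    unfold DFA.eval at hacc ⊢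
    rw [DFA.evalFrom_of_append, DFA.evalFrom_of_append, h1, h3]
    exact hacc
  rw [hM] at hacc'
  obtain ⟨w', ⟨x', y', hw'⟩, hcw'⟩ := hacc'
  -- the first two coordinates of the shortened word
  have hcoord : ∀ i : Fin 3, (w i).length ≤ m → w' i = w i := by
    intro i hi
    have hnone := conv_drop w i m hi
    rw [← hu] at hnone
    have hna : ∀ v ∈ a ++ c, v i = none := by
      intro v hv
      apply hnone
      rw [habc]
      simp only [List.mem_append] at hv ⊢
      tauto
    have hL : w' i = ((u.take m).map (fun v => v i)).reduceOption := by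
      rw [← conv_reduce w' i, hcw', List.map_append, List.reduceOption_append,
        reduce_none _ _ hna, List.append_nil]
    have hR : w i = ((u.take m).map (fun v => v i)).reduceOption := by
      rw [← conv_reduce w i, ← hu]
      conv_lhs => rw [← hsplit]
      rw [List.map_append, List.reduceOption_append, reduce_none _ _ hnone, List.append_nil]
    rw [hL, hR]
  have hx' : x' = x := by
    have := hcoord 0 (by simp [hw, hm])
    apply Subtype.ext
    simpa [hw, hw'] using this
  have hy' : y' = y := by
    have := hcoord 1 (by simp [hw, hm])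
    apply Subtype.ext
    simpa [hw, hw'] using this
  have hww : w' = w := by rw [hw', hx', hy']
  have hl1 : (u.take m ++ (a ++ c)).length = u.length := by
    rw [← hcw', hww]
  have hl2 : (u.drop m).length = (a ++ b ++ c).length := by rw [habc]
  have hl3 : 0 < b.length := List.length_pos_of_ne_nil hb
  have hl4 : (u.take m).length = m := by
    rw [List.length_take, hlen]
    omega
  simp only [List.length_append] at hl1 hl2
  omega

/-! ### Counting -/

/-- Only few numbers can have short words. -/
theorem count {A : Type} [Finite A] (e : ℕ → List A) (he : Function.Injective e) (N L : ℕ)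
    (h : ∀ k < N, (e k).length ≤ L) : N ≤ (Nat.card A + 1) ^ L := by
  classical
  have : Fintype A := Fintype.ofFinite A
  let g : Fin N → (Fin L → Option A) := fun k i => (e k)[(i : ℕ)]?
  have hg : Function.Injective g := by
    intro k k' hkk
    apply Fin.ext
    apply he
    apply List.ext_getElem?
    intro i
    by_cases hi : i < L
    · exact congrFun hkk ⟨i, hi⟩
    · rw [List.getElem?_eq_none (by have := h k k.2; omega),
        List.getElem?_eq_none (by have := h k' k'.2; omega)]
  have := Fintype.card_le_of_injective g hg
  simpa [Nat.card_eq_fintype_card] using this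

/-- An exponential beats a linear function. -/
theorem exp_beats (a b : ℕ) : ∃ n : ℕ, a + b * n < 2 ^ n := by
  have h1 : ∀ n : ℕ, n < 2 ^ n := fun n => Nat.lt_two_pow_self
  refine ⟨4 * (a + b + 1), ?_⟩
  have h2 : a + b + 2 ≤ 2 ^ (a + b + 1) := h1 (a + b + 1)
  have h3 : (2 : ℕ) ^ (4 * (a + b + 1)) = (2 ^ (a + b + 1)) ^ 4 := by
    rw [← pow_mul]; ring_nf
  rw [h3]
  have h4 : (a + b + 2) ^ 4 ≤ (2 ^ (a + b + 1)) ^ 4 := Nat.pow_le_pow_left h2 4
  have h5 : (a + b + 2) ^ 4 = (a + b + 2) ^ 2 * (a + b + 2) ^ 2 := by ring
  have h6 : 4 ≤ (a + b + 2) ^ 2 := by nlinarith [Nat.zero_le (a + b)]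
  have h7 : 4 * (a + b + 2) ^ 2 ≤ (a + b + 2) ^ 4 := by
    rw [h5]
    exact Nat.mul_le_mul_right _ h6
  have h8 : a + b * (4 * (a + b + 1)) < 4 * (a + b + 2) ^ 2 := by
    have h9 : b * (4 * (a + b + 1)) ≤ (a + b) * (4 * (a + b + 1)) :=
      Nat.mul_le_mul_right _ (Nat.le_add_left b a)
    nlinarith [Nat.zero_le (a + b)]
  omega

/-- The core of the proof: an injective coding of the positive integers by words over a finite
alphabet for which `+` and `x * 2 ^ y` lengthen words by at most a constant does not exist. -/
theorem core {A : Type} [Finite A] (e : ℕ+ → List A) (he : Function.Injective e) (C : ℕ)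
    (hadd : ∀ x y, (e (x + y)).length ≤ max (e x).length (e y).length + C)
    (hsh : ∀ x y : ℕ+, (e (x * 2 ^ (y : ℕ))).length ≤ max (e x).length (e y).length + C) :
    False := by
  set c := (e 1).length with hc
  have hpow : ∀ n : ℕ, (e (2 ^ n)).length ≤ c + n * C := by
    intro n
    induction n with
    | zero => simp [hc]
    | succ n ih =>
      have h1 : (2 : ℕ+) ^ (n + 1) = 2 ^ n + 2 ^ n := by
        apply PNat.coe_injective
        push_cast
        ring
      rw [h1]
      have h2 := hadd (2 ^ n) (2 ^ n)
      rw [max_self] at h2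
      calc _ ≤ _ := h2
        _ ≤ c + n * C + C := by omega
        _ = c + (n + 1) * C := by ring
  have hall : ∀ n : ℕ, ∀ k : ℕ+, (k : ℕ) < 2 ^ 2 ^ n → (e k).length ≤ c + 2 * n * C := by
    intro n
    induction n with
    | zero =>
      intro k hk
      have h1 : (k : ℕ) = 1 := by
        have := k.pos
        simp at hk
        omega
      have h2 : k = 1 := PNat.coe_injective (by simpa using h1)
      simp [h2, hc]
    | succ n ih =>
      intro k hk
      have hP : 0 < 2 ^ 2 ^ n := by positivity
      have hdm := Nat.div_add_mod (k : ℕ) (2 ^ 2 ^ n)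
      have hz : (k : ℕ) % 2 ^ 2 ^ n < 2 ^ 2 ^ n := Nat.mod_lt _ hP
      have hx : (k : ℕ) / 2 ^ 2 ^ n < 2 ^ 2 ^ n := by
        rw [Nat.div_lt_iff_lt_mul hP]
        calc (k : ℕ) < 2 ^ 2 ^ (n + 1) := hk
          _ = 2 ^ 2 ^ n * 2 ^ 2 ^ n := by rw [← pow_add, pow_succ]; ring_nf
      have hmono : c + 2 * n * C ≤ c + 2 * (n + 1) * C := by nlinarith [Nat.zero_le C]
      rcases Nat.eq_zero_or_pos ((k : ℕ) / 2 ^ 2 ^ n) with h0 | hxp
      · have : (k : ℕ) < 2 ^ 2 ^ n := by
          rw [h0] at hdm
          omega
        exact (ih k this).trans hmono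
      · obtain ⟨x, hxx⟩ : ∃ x : ℕ+, (x : ℕ) = (k : ℕ) / 2 ^ 2 ^ n := ⟨⟨_, hxp⟩, rfl⟩
        rw [← hxx] at hx hdm
        -- the word of `x * 2 ^ (2 ^ n)`
        have hshift : (e (x * 2 ^ ((2 ^ n : ℕ+) : ℕ))).length ≤ c + 2 * n * C + C := by
          refine (hsh _ _).trans ?_
          have h1 := ih x hx
          have h2 := hpow n
          have h3 : c + n * C ≤ c + 2 * n * C := by nlinarith [Nat.zero_le (n * C)]
          have h4 := max_le h1 (h2.trans h3)
          omega
        have hval : ((x * 2 ^ ((2 ^ n : ℕ+) : ℕ) : ℕ+) : ℕ) = 2 ^ 2 ^ n * (x : ℕ) := by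
          rw [PNat.mul_coe, PNat.pow_coe, PNat.pow_coe, mul_comm]
          rfl
        rcases Nat.eq_zero_or_pos ((k : ℕ) % 2 ^ 2 ^ n) with h0 | hzp
        · have hk' : k = x * 2 ^ ((2 ^ n : ℕ+) : ℕ) := by
            apply PNat.coe_injective
            rw [hval]
            omega
          rw [hk']
          refine hshift.trans ?_
          nlinarith [Nat.zero_le C]
        · obtain ⟨z, hzz⟩ : ∃ z : ℕ+, (z : ℕ) = (k : ℕ) % 2 ^ 2 ^ n := ⟨⟨_, hzp⟩, rfl⟩
          rw [← hzz] at hz hdm
          have hk' : k = x * 2 ^ ((2 ^ n : ℕ+) : ℕ) + z := by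
            apply PNat.coe_injective
            rw [PNat.add_coe, hval]
            exact hdm.symm
          rw [hk']
          refine (hadd _ _).trans ?_
          have h5 := ih z hz
          have h6 : c + 2 * n * C ≤ c + 2 * n * C + C := Nat.le_add_right _ _
          have h7 := max_le hshift (h5.trans h6)
          calc _ ≤ _ := Nat.add_le_add_right h7 C
            _ = c + 2 * (n + 1) * C := by ring
  -- count
  set a := Nat.card A + 1 with ha
  obtain ⟨n, hn⟩ := exp_beats (1 + a * c) (a * (2 * C))
  have h1 : 2 ^ 2 ^ n - 1 ≤ a ^ (c + 2 * n * C) := by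
    apply count (fun k => e k.succPNat) (he.comp Nat.succPNat_injective)
    intro k hk
    apply hall n
    rw [Nat.succPNat_coe]
    omega
  have h2 : a ^ (c + 2 * n * C) ≤ 2 ^ (a * (c + 2 * n * C)) := by
    rw [pow_mul]
    exact Nat.pow_le_pow_left (Nat.lt_two_pow_self (n := a)).le _
  have h3 : 2 ^ (1 + a * (c + 2 * n * C)) ≤ 2 ^ 2 ^ n := by
    apply Nat.pow_le_pow_right (by norm_num)
    calc 1 + a * (c + 2 * n * C) = 1 + a * c + a * (2 * C) * n := by ring
      _ ≤ 2 ^ n := hn.le
  have h4 : 2 ^ (1 + a * (c + 2 * n * C)) = 2 * 2 ^ (a * (c + 2 * n * C)) := by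
    rw [pow_add, pow_one]
  have h5 : 2 ≤ 2 ^ (1 + a * (c + 2 * n * C)) := by
    rw [h4]
    have : 1 ≤ 2 ^ (a * (c + 2 * n * C)) := Nat.one_le_two_pow
    omega
  have h6 : 1 + a * (c + 2 * n * C) < 2 ^ n := by
    calc 1 + a * (c + 2 * n * C) = 1 + a * c + a * (2 * C) * n := by ring
      _ < 2 ^ n := hn
  have h7 : 2 ^ (1 + a * (c + 2 * n * C)) < 2 ^ 2 ^ n := Nat.pow_lt_pow_right (by norm_num) h6
  omega

/-- **The structure `⟨ℕ_{>0}; +, x * 2 ^ y, ≤, 1⟩` is not automatic.** Moreover (second part) there
is no regular language, and not even any set `D` of words over a finite alphabet, with a bijection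
`e : ℕ_{>0} → D` for which the graphs of `+` and of `x * 2 ^ y` are automatic. -/
theorem result :
    ¬ IsAutomatic tildeLang ℕ+ ∧
    ∀ (A : Type) (_ : Finite A) (D : Set (List A)) (e : ℕ+ ≃ D),
      ¬ (AutomaticRel {w : Fin 3 → List A | ∃ x y : ℕ+, w = ![(e x : List A), e y, e (x + y)]} ∧
        AutomaticRel
          {w : Fin 3 → List A | ∃ x y : ℕ+, w = ![(e x : List A), e y, e (x * 2 ^ (y : ℕ))]}) := by
  have key : ∀ (A : Type) (_ : Finite A) (D : Set (List A)) (e : ℕ+ ≃ D),
      ¬ (AutomaticRel {w : Fin 3 → List A | ∃ x y : ℕ+, w = ![(e x : List A), e y, e (x + y)]} ∧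
        AutomaticRel
          {w : Fin 3 → List A | ∃ x y : ℕ+, w = ![(e x : List A), e y, e (x * 2 ^ (y : ℕ))]}) := by
    rintro A hA D e ⟨h1, h2⟩
    have e1 : {w : Fin 3 → List A | ∃ x y : ℕ+, w = ![(e x : List A), e y, e (x + y)]} =
        {w : Fin 3 → List A | ∃ x y : D,
          w = ![(x : List A), y, (fun x y : D => e (e.symm x + e.symm y)) x y]} := by
      ext w
      constructor
      · rintro ⟨x, y, rfl⟩
        exact ⟨e x, e y, by simp⟩
      · rintro ⟨x, y, rfl⟩
        exact ⟨e.symm x, e.symm y, by simp⟩
    have e2 : {w : Fin 3 → List A | ∃ x y : ℕ+,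
          w = ![(e x : List A), e y, e (x * 2 ^ (y : ℕ))]} =
        {w : Fin 3 → List A | ∃ x y : D,
          w = ![(x : List A), y,
            (fun x y : D => e (e.symm x * 2 ^ ((e.symm y : ℕ+) : ℕ))) x y]} := by
      ext w
      constructor
      · rintro ⟨x, y, rfl⟩
        exact ⟨e x, e y, by simp⟩
      · rintro ⟨x, y, rfl⟩
        exact ⟨e.symm x, e.symm y, by simp⟩
    rw [e1] at h1
    rw [e2] at h2
    obtain ⟨C1, hC1⟩ := growth D _ h1
    obtain ⟨C2, hC2⟩ := growth D _ h2
    refine core (fun k => (e k : List A)) (Subtype.val_injective.comp e.injective) (C1 + C2)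
      ?_ ?_
    · intro x y
      have := hC1 (e x) (e y)
      simp only [Equiv.symm_apply_apply] at this
      omega
    · intro x y
      have := hC2 (e x) (e y)
      simp only [Equiv.symm_apply_apply] at this
      omega
  refine ⟨?_, key⟩
  rintro ⟨A, hA, D, hS, -, ⟨e⟩, hf, -⟩
  refine key A hA D e.toEquiv ⟨?_, ?_⟩
  · have h1 := hf 2 Fun.add
    convert h1 using 1
    ext w
    constructor
    · rintro ⟨x, y, rfl⟩
      refine ⟨![e x, e y], ?_⟩
      have h2 : Language.Structure.funMap (L := tildeLang) (M := D) Fun.add ![e x, e y] =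
          e (x + y) := by
        have h3 := e.map_fun (Fun.add : tildeLang.Functions 2) ![x, y]
        have h4 : (e ∘ ![x, y] : Fin 2 → D) = ![e x, e y] := by
          funext i
          fin_cases i <;> rfl
        rw [h4] at h3
        exact h3.symm
      rw [h2]
      funext i
      fin_cases i <;> rfl
    · rintro ⟨x, rfl⟩
      refine ⟨e.symm (x 0), e.symm (x 1), ?_⟩
      have h2 : Language.Structure.funMap (L := tildeLang) (M := D) Fun.add x =
          e (e.symm (x 0) + e.symm (x 1)) := by
        have h3 := e.map_fun (Fun.add : tildeLang.Functions 2) ![e.symm (x 0), e.symm (x 1)]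
        have h4 : (e ∘ ![e.symm (x 0), e.symm (x 1)] : Fin 2 → D) = x := by
          funext i
          fin_cases i <;> simp
        rw [h4] at h3
        exact h3.symm
      rw [h2]
      funext i
      fin_cases i
      · change ((x 0 : D) : List A) = ((e (e.symm (x 0)) : D) : List A)
        simp
      · change ((x 1 : D) : List A) = ((e (e.symm (x 1)) : D) : List A)
        simp
      · rfl
  · have h1 := hf 2 Fun.shift
    convert h1 using 1
    ext w
    constructor
    · rintro ⟨x, y, rfl⟩
      refine ⟨![e x, e y], ?_⟩
      have h2 : Language.Structure.funMap (L := tildeLang) (M := D) Fun.shift ![e x, e y] =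
          e (x * 2 ^ (y : ℕ)) := by
        have h3 := e.map_fun (Fun.shift : tildeLang.Functions 2) ![x, y]
        have h4 : (e ∘ ![x, y] : Fin 2 → D) = ![e x, e y] := by
          funext i
          fin_cases i <;> rfl
        rw [h4] at h3
        exact h3.symm
      rw [h2]
      funext i
      fin_cases i <;> rfl
    · rintro ⟨x, rfl⟩
      refine ⟨e.symm (x 0), e.symm (x 1), ?_⟩
      have h2 : Language.Structure.funMap (L := tildeLang) (M := D) Fun.shift x =
          e (e.symm (x 0) * 2 ^ ((e.symm (x 1) : ℕ+) : ℕ)) := by
        have h3 := e.map_fun (Fun.shift : tildeLang.Functions 2) ![e.symm (x 0), e.symm (x 1)]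
        have h4 : (e ∘ ![e.symm (x 0), e.symm (x 1)] : Fin 2 → D) = x := by
          funext i
          fin_cases i <;> simp
        rw [h4] at h3
        exact h3.symm
      rw [h2]
      funext i
      fin_cases i
      · change ((x 0 : D) : List A) = ((e (e.symm (x 0)) : D) : List A)
        simp
      · change ((x 1 : D) : List A) = ((e (e.symm (x 1)) : D) : List A)
        simp
      · rfl

end Pool.Agent.Results.MP_34afd1_lc.NotAutomatic
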